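import Pool.Agent.H61.CZ.Final

/-!
# The special cases: only a building, only a CAT(0) space

A point is a CAT(0) space with property A, and it is a building of rank zero; so the two special cases
of the theorem on groups acting on a building and on a CAT(0) space are: groups acting on a building,
and groups acting on a CAT(0) space.
-/

set_option autoImplicit false

namespace Pool.Agent.H61.CZ

open Pool.Agent.H97.BLD Pool.Agent.H66.NCL Pool.Agent.H4.FC
open scoped Pointwise

universe u v

theorem cat0_point : CAT0 PUnit.{v + 1} := by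
  intro x y s _ _
  refine ⟨x, fun o => ?_⟩
  rw [Subsingleton.elim o x, Subsingleton.elim y x, dist_self]
  simp

theorem spaceA_point : SpaceA PUnit.{v + 1} := by
  intro R ε hε
  refine ⟨PUnit, fun _ => Finsupp.single PUnit.unit 1, 0, ?_, ?_, ?_, ?_⟩
  · intro x z
    rw [Subsingleton.elim z PUnit.unit, Finsupp.single_eq_same]
    exact zero_le_one
  · intro x
    rw [Finsupp.sum_single_index rfl]
  · intro x y _
    rw [sub_self, n1_zero]
    exact hε.le
  · intro x y z _ _
    rw [Subsingleton.elim y x, dist_self]

theorem finShapes_point (G : Type u) [Group G] [MulAction G PUnit.{v + 1}] :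
    FinShapes G PUnit.{v + 1} where
  isom g x y := (dist_eq_zero.mpr (Subsingleton.elim (g • x) (g • y))).trans
    (dist_eq_zero.mpr (Subsingleton.elim x y)).symm
  shapes := ⟨Unit, inferInstance, fun _ => PUnit, inferInstance, inferInstance, fun _ => {id},
    fun _ _ => 1,
    fun _ c _ p q => (dist_eq_zero.mpr (Subsingleton.elim (c p) (c q))).trans_le dist_nonneg,
    fun x => ⟨(), id, rfl, x, rfl⟩, fun _ _ => one_pos, fun _ _ _ _ _ _ => Subsingleton.elim _ _⟩

/-- the Coxeter matrix of rank zero -/
def cm0 : CoxeterMatrix (Fin 0) where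
  M := fun i => i.elim0
  isSymm := by
    ext i
    exact i.elim0
  diagonal i := i.elim0
  off_diagonal i := i.elim0

theorem isBuilding_point (M : CoxeterMatrix (Fin 0)) :
    IsBuilding M (fun _ _ : PUnit.{v + 1} => (1 : M.Group)) where
  eq_one _ _ := ⟨fun _ => Subsingleton.elim _ _, fun _ => rfl⟩
  step s := s.elim0
  step_up s := s.elim0
  exists_step s := s.elim0

/-- groups acting on buildings -/
theorem propertyA_building {S : Type} [Finite S] {M : CoxeterMatrix S} {Δ : Type u}
    {δ : Δ → Δ → M.Group} {G : Type u} [Group G] [MulAction G Δ] [Nonempty Δ]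
    (h : IsBuilding M δ) (hG : ∀ (g : G) (c d : Δ), δ (g • c) (g • d) = δ c d)
    (hst : ∀ J : Finset S, Finite (par M J) → ∀ c : Δ,
      PropertyA ↥(MulAction.stabilizer G (residue M δ J c))) : PropertyA G := by
  classical
  let _ : MulAction G PUnit.{u + 1} :=
    { smul := fun _ x => x, one_smul := fun _ => rfl, mul_smul := fun _ _ _ => rfl }
  refine propertyA h hG cat0_point (finShapes_point G) spaceA_point fun J hJ c x => ?_
  have h1 : MulAction.stabilizer G x = ⊤ := by
    ext g
    exact ⟨fun _ => Subgroup.mem_top g, fun _ => MulAction.mem_stabilizer_iff.mpr rfl⟩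
  rw [h1, top_inf_eq]
  exact hst J hJ c

/-- groups acting on CAT(0) spaces -/
theorem propertyA_cat0 {X G : Type u} [Group G] [MetricSpace X] [MulAction G X] [Nonempty X]
    (hX : CAT0 X) (hd : FinShapes G X) (hA : SpaceA X)
    (hst : ∀ x : X, PropertyA ↥(MulAction.stabilizer G x)) : PropertyA G := by
  classical
  let _ : MulAction G PUnit.{u + 1} :=
    { smul := fun _ x => x, one_smul := fun _ => rfl, mul_smul := fun _ _ _ => rfl }
  refine propertyA (isBuilding_point cm0) (fun _ _ _ => rfl) hX hd hA fun J _ c x => ?_
  have h1 : MulAction.stabilizer G (residue cm0 (fun _ _ : PUnit.{u + 1} => (1 : cm0.Group)) J c) =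
      ⊤ := by
    have h2 : residue cm0 (fun _ _ : PUnit.{u + 1} => (1 : cm0.Group)) J c = Set.univ := by
      ext d
      exact ⟨fun _ => Set.mem_univ d, fun _ => one_mem (par cm0 J)⟩
    rw [h2]
    ext g
    rw [MulAction.mem_stabilizer_iff, Set.smul_set_univ]
    exact ⟨fun _ => Subgroup.mem_top g, fun _ => rfl⟩
  rw [h1, inf_top_eq]
  exact hst x

end Pool.Agent.H61.CZ
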