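import Pool.Agent.H97.BLD.Defs

/-!
# Groups acting on CAT(0) spaces: coarse stabilizers

`X` is a CAT(0) space (inequality of Bruhat and Tits), `G` acts on `X` by isometries with finitely
many shapes: `X` is covered by the images of `1`-Lipschitz maps from finitely many compact metric
spaces `Q i`, and the points `c q` (`q` in `Q i`) are fixed by `g` or moved by at least `ε i q > 0`.
If the stabilizers in `G` of the points of `X` are in the class `P`, then so are the sets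
`{g | dist o (g x) ≤ t}`.
-/

set_option autoImplicit false

namespace Pool.Agent.H61.CZ

open Pool.Agent.H97.BLD

universe u v

/-- `X` is a CAT(0) space: any two points `x`, `y` are joined by points `m` which divide the distance
in the ratio `s : 1 - s` and satisfy the inequality of Bruhat and Tits -/
def CAT0 (X : Type v) [MetricSpace X] : Prop :=
  ∀ (x y : X) (s : ℝ), 0 ≤ s → s ≤ 1 → ∃ m : X, ∀ o : X,
    dist o m ^ 2 ≤ (1 - s) * dist o x ^ 2 + s * dist o y ^ 2 - s * (1 - s) * dist x y ^ 2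

/-- `G` acts on `X` by isometries and with finitely many shapes: there are finitely many compact metric
spaces `Q i`, sets `F i` of `1`-Lipschitz maps from `Q i` to `X`, whose images cover `X`, and for
every `q` in `Q i` there is an `ε i q > 0` such that, for every `c` in `F i`, an element of `G` which
moves `c q` by less than `ε i q` fixes `c q` -/
structure FinShapes (G : Type u) (X : Type v) [Group G] [MetricSpace X] [MulAction G X] : Prop where
  isom : ∀ (g : G) (x y : X), dist (g • x) (g • y) = dist x y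
  shapes : ∃ (ι : Type) (_ : Finite ι) (Q : ι → Type v) (_ : ∀ i, MetricSpace (Q i))
    (_ : ∀ i, CompactSpace (Q i)) (F : ∀ i, Set (Q i → X)) (ε : ∀ i, Q i → ℝ),
    (∀ i, ∀ c ∈ F i, ∀ p q, dist (c p) (c q) ≤ dist p q) ∧ (∀ x, ∃ i, ∃ c ∈ F i, ∃ q, x = c q) ∧
    (∀ i q, 0 < ε i q) ∧
    ∀ i, ∀ c ∈ F i, ∀ (q : Q i) (g : G), dist (c q) (g • c q) < ε i q → g • c q = c q

variable {G : Type u} {X : Type v} [Group G] [MetricSpace X] [MulAction G X]

theorem Good.bunion {P : Set G → Prop} (hP : Good P) {ι : Type*} (E : Finset ι) (f : ι → Set G)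
    (h : ∀ e ∈ E, P (f e)) : P (⋃ e ∈ E, f e) := by
  classical
  induction E using Finset.induction_on with
  | empty =>
    refine hP.mono _ _ ?_ hP.empty
    intro g hg
    simp at hg
  | insert a E ha ih =>
    have h1 := hP.union _ _ (h a (Finset.mem_insert_self a E))
      (ih fun e he => h e (Finset.mem_insert_of_mem he))
    refine hP.mono _ _ ?_ h1
    intro g hg
    simp only [Finset.mem_insert, Set.iUnion_iUnion_eq_or_left, Set.mem_union] at hg
    exact hg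

/-- one step: from `t` to `t + ε² / 4` -/
theorem step {P : Set G → Prop} (hP : Good P) (hX : CAT0 X)
    (hi : ∀ (g : G) (x y : X), dist (g • x) (g • y) = dist x y)
    (o x : X) (hx : P {g : G | g • x = x}) {ε : ℝ} (hε0 : 0 ≤ ε)
    (hε : ∀ g : G, dist x (g • x) < ε → g • x = x) {t a : ℝ} (hta : t - ε ^ 2 / 4 ≤ a)
    (ha : ∀ x, P {g : G | dist o (g • x) ^ 2 ≤ a}) :
    P {g : G | dist o (g • x) ^ 2 ≤ t} := by
  classical
  refine hP.cosets (MulAction.stabilizer G x) _ ?_ ?_ ?_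
  · refine hP.mono _ _ ?_ hx
    intro g hg
    exact hg
  · intro y hy l hl
    have h1 : l • x = x := hl
    show dist o ((y * l) • x) ^ 2 ≤ t
    rw [mul_smul, h1]
    exact hy
  · intro E
    choose m hm using fun e : G => hX x (e • x) (1 / 2) (by norm_num) (by norm_num)
    refine ⟨⋃ e ∈ E, {g : G | dist o (g • m e) ^ 2 ≤ a}, Good.bunion hP E _ fun e _ => ha (m e),
      ?_⟩
    intro y hy e he heL hye
    refine Set.mem_iUnion₂.mpr ⟨e, he, ?_⟩
    have h1 : ε ≤ dist x (e • x) := by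
      by_contra hc
      exact heL (hε _ (not_le.mp hc))
    have h2 := hm e (y⁻¹ • o)
    have h3 : ∀ z : X, dist (y⁻¹ • o) z = dist o (y • z) := by
      intro z
      rw [← hi y, smul_inv_smul]
    rw [h3, h3, h3] at h2
    have h4 : dist o (y • x) ^ 2 ≤ t := hy
    have h5 : dist o ((y * e) • x) ^ 2 ≤ t := hye
    rw [mul_smul] at h5
    have h6 : ε ^ 2 ≤ dist x (e • x) ^ 2 := by
      exact pow_le_pow_left₀ hε0 h1 2
    show dist o (y • m e) ^ 2 ≤ a
    linarith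

/-- the gain for one shape -/
theorem gain {P : Set G → Prop} (hP : Good P) (hX : CAT0 X)
    (hi : ∀ (g : G) (x y : X), dist (g • x) (g • y) = dist x y)
    (hst : ∀ x : X, P {g : G | g • x = x}) (o : X) {τ : ℝ} (hτ0 : 0 ≤ τ)
    (hin : ∀ t < τ, ∀ x, P {g : G | dist o (g • x) ^ 2 ≤ t}) {Q : Type v} [MetricSpace Q]
    [CompactSpace Q] (C : Set (Q → X)) (ε : Q → ℝ)
    (hlip : ∀ c ∈ C, ∀ p q, dist (c p) (c q) ≤ dist p q) (hε0 : ∀ q, 0 < ε q)
    (hε : ∀ c ∈ C, ∀ (q : Q) (g : G), dist (c q) (g • c q) < ε q → g • c q = c q) :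
    ∃ η : ℝ, 0 < η ∧ ∀ c ∈ C, ∀ q, P {g : G | dist o (g • c q) ≤ Real.sqrt τ + η} := by
  classical
  obtain ⟨δ, hδ⟩ : ∃ δ : Q → ℝ, δ = fun x =>
      (Real.sqrt (τ + ε x ^ 2 / 4) - Real.sqrt τ) / 2 := ⟨_, rfl⟩
  have hδ0 : ∀ x, 0 < δ x := by
    intro x
    have h1 : Real.sqrt τ < Real.sqrt (τ + ε x ^ 2 / 4) := by
      refine Real.sqrt_lt_sqrt hτ0 ?_
      have := hε0 x
      have : 0 < ε x ^ 2 / 4 := by positivity
      linarith
    rw [hδ]
    show 0 < (Real.sqrt (τ + ε x ^ 2 / 4) - Real.sqrt τ) / 2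
    linarith
  obtain ⟨F, hF1, hF2⟩ := (isCompact_univ (X := Q)).elim_finite_subcover_image (b := Set.univ)
    (c := fun k => Metric.ball k (δ k)) (fun k _ => Metric.isOpen_ball)
    (fun k hk => Set.mem_iUnion₂.mpr ⟨k, hk, Metric.mem_ball_self (hδ0 k)⟩)
  obtain ⟨hFfin, hFc⟩ := hF2
  -- the minimal gain
  obtain ⟨δ₀, hδ₀0, hδ₀⟩ : ∃ δ₀ : ℝ, 0 < δ₀ ∧ ∀ k ∈ F, δ₀ ≤ δ k := by
    rcases F.eq_empty_or_nonempty with h0 | h0
    · exact ⟨1, one_pos, fun k hk => by rw [h0] at hk; exact absurd hk (Set.notMem_empty k)⟩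
    · obtain ⟨k₀, hk₀, hmin⟩ := Set.exists_min_image F δ hFfin h0
      exact ⟨δ k₀, hδ0 k₀, hmin⟩
  refine ⟨δ₀ / 2, by positivity, ?_⟩
  intro c hc k
  obtain ⟨k₁, hk₁, hkk⟩ := Set.mem_iUnion₂.mp (hFc (Set.mem_univ k))
  have hdist : dist (c k) (c k₁) < δ k₁ := lt_of_le_of_lt (hlip c hc k k₁) hkk
  have hs0 := Real.sqrt_nonneg τ
  have hq0 := Real.sqrt_nonneg (τ + ε k₁ ^ 2 / 4)
  have h2 := hδ₀ k₁ hk₁
  have h3 : 2 * δ k₁ = Real.sqrt (τ + ε k₁ ^ 2 / 4) - Real.sqrt τ := by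
    rw [hδ]
    show 2 * ((Real.sqrt (τ + ε k₁ ^ 2 / 4) - Real.sqrt τ) / 2) = _
    ring
  have h4 : (Real.sqrt τ + δ₀ / 2 + δ k₁) ^ 2 < τ + ε k₁ ^ 2 / 4 := by
    have h5 : Real.sqrt τ + δ₀ / 2 + δ k₁ < Real.sqrt (τ + ε k₁ ^ 2 / 4) := by
      have := hδ0 k₁
      linarith
    have h6 : 0 ≤ Real.sqrt τ + δ₀ / 2 + δ k₁ := by
      have := hδ0 k₁
      positivity
    have h7 : Real.sqrt (τ + ε k₁ ^ 2 / 4) ^ 2 = τ + ε k₁ ^ 2 / 4 :=
      Real.sq_sqrt (by positivity)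
    rw [← h7]
    exact pow_lt_pow_left₀ h5 h6 two_ne_zero
  have h8 : P {g : G | dist o (g • c k₁) ^ 2 ≤ (Real.sqrt τ + δ₀ / 2 + δ k₁) ^ 2} :=
    step hP hX hi o (c k₁) (hst _) (hε0 k₁).le (hε c hc k₁) le_rfl (hin _ (by linarith))
  refine hP.mono _ _ ?_ h8
  intro g hg
  have h11 : dist o (g • c k) ≤ Real.sqrt τ + δ₀ / 2 := hg
  have h12 : dist o (g • c k₁) ≤ dist o (g • c k) + dist (g • c k) (g • c k₁) :=
    dist_triangle _ _ _
  rw [hi g] at h12
  show dist o (g • c k₁) ^ 2 ≤ (Real.sqrt τ + δ₀ / 2 + δ k₁) ^ 2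
  exact pow_le_pow_left₀ dist_nonneg (by linarith) 2

/-- **Coarse stabilizers.** -/
theorem coarse {P : Set G → Prop} (hP : Good P) (hX : CAT0 X) (hd : FinShapes G X)
    (hst : ∀ x : X, P {g : G | g • x = x}) (o x : X) (t : ℝ) :
    P {g : G | dist o (g • x) ≤ t} := by
  classical
  obtain ⟨A, hA⟩ : ∃ A : Set ℝ, A = {t | ∀ x, P {g : G | dist o (g • x) ^ 2 ≤ t}} := ⟨_, rfl⟩
  have hmono : ∀ s t : ℝ, s ≤ t → t ∈ A → s ∈ A := by
    intro s t hst' ht
    rw [hA] at ht ⊢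
    intro x
    refine hP.mono _ _ ?_ (ht x)
    intro g hg
    exact le_trans hg hst'
  have hneg : ∀ t : ℝ, t < 0 → t ∈ A := by
    intro t ht
    rw [hA]
    intro x
    refine hP.mono _ _ ?_ hP.empty
    intro g hg
    have h1 : dist o (g • x) ^ 2 ≤ t := hg
    exact absurd (sq_nonneg (dist o (g • x))) (not_le.mpr (lt_of_le_of_lt h1 ht))
  have hall : ∀ t : ℝ, t ∈ A := by
    by_contra hc
    push Not at hc
    obtain ⟨b, hb⟩ := hc
    have hbdd : BddAbove A := ⟨b, fun t ht => by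
      by_contra hlt
      exact hb (hmono b t (not_le.mp hlt).le ht)⟩
    have hne : A.Nonempty := ⟨-1, hneg _ (by norm_num)⟩
    obtain ⟨τ, hτ⟩ : ∃ τ, τ = sSup A := ⟨_, rfl⟩
    have hτ0 : 0 ≤ τ := by
      by_contra hlt
      have h1 : τ / 2 ∈ A := hneg _ (by linarith [not_le.mp hlt])
      have h2 := le_csSup hbdd h1
      rw [← hτ] at h2
      linarith [not_le.mp hlt]
    have hin : ∀ t, t < τ → t ∈ A := by
      intro t ht
      rw [hτ] at ht
      obtain ⟨s, hs, hts⟩ := exists_lt_of_lt_csSup hne ht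
      exact hmono t s hts.le hs
    have hout : ∀ t, t ∈ A → t ≤ τ := fun t ht => hτ ▸ le_csSup hbdd ht
    obtain ⟨ι, hfin, Q, mQ, cQ, C, ε, hlip, hcov, hε0, hε⟩ := hd.shapes
    have hgain : ∀ i, ∃ η : ℝ, 0 < η ∧ ∀ c ∈ C i, ∀ q,
        P {g : G | dist o (g • c q) ≤ Real.sqrt τ + η} := by
      intro i
      refine gain hP hX hd.isom hst o hτ0 ?_ (C i) (ε i) (hlip i) (hε0 i) (hε i)
      intro t ht x
      have h1 := hin t ht
      rw [hA] at h1
      exact h1 x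
    choose η hη0 hη using hgain
    obtain ⟨η₀, hη₀0, hη₀⟩ : ∃ η₀ : ℝ, 0 < η₀ ∧ ∀ i, η₀ ≤ η i := by
      rcases isEmpty_or_nonempty ι with h0 | h0
      · exact ⟨1, one_pos, fun i => h0.elim i⟩
      · obtain ⟨i₀, hi₀⟩ := Finite.exists_min η
        exact ⟨η i₀, hη0 i₀, hi₀⟩
    have hs0 := Real.sqrt_nonneg τ
    have hnew : (Real.sqrt τ + η₀) ^ 2 ∈ A := by
      rw [hA]
      intro x
      obtain ⟨i, c, hc, q, rfl⟩ := hcov x
      refine hP.mono _ _ ?_ (hη i c hc q)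
      intro g hg
      have h10 : dist o (g • c q) ^ 2 ≤ (Real.sqrt τ + η₀) ^ 2 := hg
      have h11 : dist o (g • c q) ≤ Real.sqrt τ + η₀ := le_of_sq_le_sq h10 (by positivity)
      show dist o (g • c q) ≤ Real.sqrt τ + η i
      linarith [hη₀ i]
    have h1 := hout _ hnew
    have h2 : τ < (Real.sqrt τ + η₀) ^ 2 := by
      have h3 : Real.sqrt τ ^ 2 = τ := Real.sq_sqrt hτ0
      nlinarith
    linarith
  have h1 := hall (t ^ 2)
  rw [hA] at h1
  by_cases ht : 0 ≤ t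
  · refine hP.mono _ _ ?_ (h1 x)
    intro g hg
    exact pow_le_pow_left₀ dist_nonneg hg 2
  · refine hP.mono _ _ ?_ hP.empty
    intro g hg
    have h2 : dist o (g • x) ≤ t := hg
    exact absurd (dist_nonneg (x := o) (y := g • x)) (not_le.mpr (lt_of_le_of_lt h2 (not_le.mp ht)))

end Pool.Agent.H61.CZ
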