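import Pool.Agent.H61.CZ.Main

/-!
# Property A of contracting CAT(0) spaces

`X` has a Lipschitz partition of unity (for instance the barycentric coordinates of a polyhedral
complex with finitely many shapes) and geodesics to a point `o` whose starting points are at distance
at most `R` approach each other uniformly (for instance `X` is CAT(-1)). Then `X` has property A: take
the average of the partition of unity along geodesics.
-/

set_option autoImplicit false

namespace Pool.Agent.H61.CZ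

open Pool.Agent.H97.BLD Pool.Agent.H66.NCL

universe u v

/-- a Lipschitz partition of unity -/
def LipPart (X : Type v) [MetricSpace X] : Prop :=
  ∃ (Z : Type v) (β : X → Z →₀ ℝ) (C D : ℝ), (∀ x z, 0 ≤ β x z) ∧
    (∀ x, ((β x).sum fun _ t => t) = 1) ∧ (∀ x y, n1 (β x - β y) ≤ C * dist x y) ∧
    ∀ x y z, β x z ≠ 0 → β y z ≠ 0 → dist x y ≤ D

/-- geodesics to `o` which start at distance at most `R` approach each other uniformly -/
def Contracting (X : Type v) [MetricSpace X] (o : X) : Prop :=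
  ∀ (R η : ℝ), 0 < η → ∃ T : ℝ, ∀ x y p q : X, dist x y ≤ R → dist o p = dist o q →
    dist o p + dist p x = dist o x → dist o q + dist q y = dist o y → T ≤ dist p x → dist p q ≤ η

variable {X : Type v} [MetricSpace X]

theorem exists_point (hX : CAT0 X) (o x : X) (r : ℝ) :
    ∃ p : X, (r ≤ 0 → p = o) ∧ (0 < r → r ≤ dist o x → dist o p = r ∧
      dist o p + dist p x = dist o x) := by
  rcases le_or_gt r 0 with h | h
  · exact ⟨o, fun _ => rfl, fun h1 => absurd h1 (not_lt.mpr h)⟩
  rcases le_or_gt r (dist o x) with h1 | h1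
  · have hd : 0 < dist o x := lt_of_lt_of_le h h1
    obtain ⟨s, hs⟩ : ∃ s, s = r / dist o x := ⟨_, rfl⟩
    have hsd : s * dist o x = r := by
      rw [hs]
      field_simp
    have hs0 : 0 ≤ s := by
      rw [hs]
      positivity
    have hs1 : s ≤ 1 := by
      rw [hs]
      exact (div_le_one hd).mpr h1
    obtain ⟨m, hm⟩ := hX o x s hs0 hs1
    have h2 := hm o
    have h3 := hm x
    rw [dist_self] at h2 h3
    have h4 : dist o m ^ 2 ≤ r ^ 2 := by
      rw [← hsd]
      nlinarith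
    have h5 : dist x m ^ 2 ≤ (dist o x - r) ^ 2 := by
      rw [← hsd]
      rw [dist_comm x o] at h3
      nlinarith
    have h6 : dist o m ≤ r := le_of_sq_le_sq h4 h.le
    have h7 : dist x m ≤ dist o x - r := le_of_sq_le_sq h5 (by linarith)
    have h8 := dist_triangle o m x
    rw [dist_comm m x] at h8
    refine ⟨m, fun h' => absurd h (not_lt.mpr h'), fun _ _ => ⟨by linarith, ?_⟩⟩
    rw [dist_comm m x]
    linarith
  · exact ⟨x, fun h' => absurd h (not_lt.mpr h'), fun _ h' => absurd h1 (not_lt.mpr h')⟩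

section n1

variable {Z : Type v}

theorem n1_neg (f : Z →₀ ℝ) : n1 (-f) = n1 f := by
  classical
  rw [n1_eq_sum (-f) (s := f.support) (by rw [Finsupp.support_neg]),
    n1_eq_sum f (s := f.support) subset_rfl]
  exact Finset.sum_congr rfl fun z _ => by rw [Finsupp.neg_apply, abs_neg]

theorem n1_sub_le (f g : Z →₀ ℝ) : n1 (f - g) ≤ n1 f + n1 g := by
  rw [sub_eq_add_neg, ← n1_neg g]
  exact n1_add_le _ _

theorem n1_zero : n1 (0 : Z →₀ ℝ) = 0 := by
  unfold n1
  simp

theorem n1_smul {c : ℝ} (hc : 0 ≤ c) (f : Z →₀ ℝ) : n1 (c • f) = c * n1 f := by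
  classical
  rw [n1_eq_sum (c • f) (s := f.support) Finsupp.support_smul,
    n1_eq_sum f (s := f.support) subset_rfl, Finset.mul_sum]
  exact Finset.sum_congr rfl fun z _ => by
    rw [Finsupp.smul_apply, smul_eq_mul, abs_mul, abs_of_nonneg hc]

theorem n1_of_prob {f : Z →₀ ℝ} (h0 : ∀ z, 0 ≤ f z) (h1 : (f.sum fun _ t => t) = 1) :
    n1 f = 1 := by
  rw [← h1]
  unfold n1 Finsupp.sum
  exact Finset.sum_congr rfl fun z _ => abs_of_nonneg (h0 z)

/-- shifting a window -/
theorem n1_window (G : ℤ → Z →₀ ℝ) (hG : ∀ i, n1 (G i) = 1) (N : ℕ) (a : ℤ) (k : ℕ) :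
    n1 ((∑ j ∈ Finset.range N, G (a + k - j)) - ∑ j ∈ Finset.range N, G (a - j)) ≤ 2 * k := by
  induction k with
  | zero =>
    have : (∑ j ∈ Finset.range N, G (a + (0 : ℕ) - j)) - ∑ j ∈ Finset.range N, G (a - j) = 0 := by
      rw [sub_eq_zero]
      refine Finset.sum_congr rfl fun j _ => ?_
      congr 1
      push_cast
      ring
    rw [this, n1_zero]
    simp
  | succ k ih =>
    have h1 : (∑ j ∈ Finset.range N, G (a + (k + 1 : ℕ) - j)) -
        ∑ j ∈ Finset.range N, G (a + k - j) = G (a + k + 1) - G (a + k + 1 - N) := by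
      rw [← Finset.sum_sub_distrib]
      have h2 := Finset.sum_range_sub' (fun j : ℕ => G (a + k + 1 - j)) N
      rw [show G (a + k + 1) = (fun j : ℕ => G (a + k + 1 - j)) 0 by simp, ← h2]
      refine Finset.sum_congr rfl fun j _ => ?_
      congr 2
      · push_cast
        ring
      · push_cast
        ring
    have h3 : (∑ j ∈ Finset.range N, G (a + (k + 1 : ℕ) - j)) - ∑ j ∈ Finset.range N, G (a - j) =
        (G (a + k + 1) - G (a + k + 1 - N)) +
          ((∑ j ∈ Finset.range N, G (a + k - j)) - ∑ j ∈ Finset.range N, G (a - j)) := by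
      rw [← h1]
      abel
    have h4 := n1_add_le (G (a + k + 1) - G (a + k + 1 - N))
      ((∑ j ∈ Finset.range N, G (a + k - j)) - ∑ j ∈ Finset.range N, G (a - j))
    have h5 := n1_sub_le (G (a + k + 1)) (G (a + k + 1 - N))
    rw [hG, hG] at h5
    rw [h3]
    push_cast
    linarith

end n1

/-- **Contracting CAT(0) spaces with a Lipschitz partition of unity have property A.** -/
theorem spaceA_of_contracting (hX : CAT0 X) (hL : LipPart X) (o : X) (hc : Contracting X o) :
    SpaceA X := by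
  classical
  intro R ε hε
  obtain ⟨Z, β, C, D, hβ0, hβ1, hβL, hβD⟩ := hL
  choose pt hpt0 hpt1 using fun (x : X) (r : ℝ) => exists_point hX o x r
  obtain ⟨η, hη⟩ : ∃ η, η = ε / (2 * (|C| + 1)) := ⟨_, rfl⟩
  have hC1 : 0 < |C| + 1 := by positivity
  have hη0 : 0 < η := by
    rw [hη]
    positivity
  obtain ⟨T₀, hT₀⟩ := hc R η hη0
  obtain ⟨T, hT⟩ : ∃ T, T = max T₀ 0 := ⟨_, rfl⟩
  have hT1 : T₀ ≤ T := hT ▸ le_max_left _ _
  have hT2 : 0 ≤ T := hT ▸ le_max_right _ _
  obtain ⟨k, hk⟩ : ∃ k : ℕ, R + 1 ≤ k := exists_nat_ge _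
  obtain ⟨N, hN⟩ : ∃ N : ℕ, 4 * k / ε + 1 ≤ N := exists_nat_ge _
  have hN0 : (0 : ℝ) < N := by
    have : 0 ≤ 4 * k / ε := by positivity
    linarith
  have hNk : 4 * k ≤ ε * N := by
    have h1 : 4 * k / ε ≤ N := by linarith
    rw [div_le_iff₀ hε] at h1
    linarith
  have hcard : ∀ x, n1 (β x) = 1 := fun x => n1_of_prob (hβ0 x) (hβ1 x)
  obtain ⟨m, hm⟩ : ∃ m : X → ℤ, m = fun x => ⌊dist o x - T⌋ := ⟨_, rfl⟩
  have hm1 : ∀ x, (m x : ℝ) ≤ dist o x - T := by
    intro x
    rw [hm]
    exact Int.floor_le _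
  have hm2 : ∀ x, dist o x - T < m x + 1 := by
    intro x
    rw [hm]
    exact Int.lt_floor_add_one _
  obtain ⟨S, hS⟩ : ∃ S : X → Z →₀ ℝ, S = fun x =>
      ∑ j ∈ Finset.range N, β (pt x ((m x - j : ℤ) : ℝ)) := ⟨_, rfl⟩
  -- the main estimate
  have key : ∀ x y, dist x y ≤ R → m x ≤ m y → n1 (S x - S y) ≤ ε * N := by
    intro x y hxy hle
    obtain ⟨d, hd⟩ : ∃ d : ℕ, m y = m x + d := ⟨(m y - m x).toNat, by
      rw [Int.toNat_of_nonneg (by omega)]
      ring⟩
    have hdk : (d : ℝ) ≤ k := by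
      have h1 := hm1 y
      have h2 := hm2 x
      have h3 := dist_triangle o x y
      have h4 : (m y : ℝ) = m x + d := by exact_mod_cast hd
      linarith
    have h1 : S x - S y = (∑ j ∈ Finset.range N, (β (pt x ((m x - j : ℤ) : ℝ)) -
        β (pt y ((m x - j : ℤ) : ℝ)))) -
        ((∑ j ∈ Finset.range N, β (pt y ((m x + d - j : ℤ) : ℝ))) -
          ∑ j ∈ Finset.range N, β (pt y ((m x - j : ℤ) : ℝ))) := by
      rw [hS, Finset.sum_sub_distrib]
      show (∑ j ∈ Finset.range N, β (pt x ((m x - j : ℤ) : ℝ))) -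
        (∑ j ∈ Finset.range N, β (pt y ((m y - j : ℤ) : ℝ))) = _
      rw [hd]
      abel
    have h2 := n1_window (fun i : ℤ => β (pt y (i : ℝ))) (fun i => hcard _) N (m x) d
    have h3 : n1 (∑ j ∈ Finset.range N, (β (pt x ((m x - j : ℤ) : ℝ)) -
        β (pt y ((m x - j : ℤ) : ℝ)))) ≤ N * (ε / 2) := by
      refine (n1_sum_le _ _).trans ?_
      have hcn : (N : ℝ) * (ε / 2) = ∑ _j ∈ Finset.range N, ε / 2 := by
        rw [Finset.sum_const, Finset.card_range, nsmul_eq_mul]
      rw [hcn]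
      refine Finset.sum_le_sum fun j _ => ?_
      have h5 : dist (pt x ((m x - j : ℤ) : ℝ)) (pt y ((m x - j : ℤ) : ℝ)) ≤ η := by
        have hle' : ((m x - j : ℤ) : ℝ) ≤ m x := by
          push_cast
          have : (0 : ℝ) ≤ (j : ℝ) := Nat.cast_nonneg j
          linarith
        have hle'' : (m x : ℝ) ≤ m y := by exact_mod_cast hle
        rcases le_or_gt ((m x - j : ℤ) : ℝ) 0 with h6 | h6
        · rw [hpt0 x _ h6, hpt0 y _ h6, dist_self]
          exact hη0.le
        · have h7 := hm1 x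
          have h8 := hm1 y
          obtain ⟨h9, h10⟩ := hpt1 x _ h6 (by linarith)
          obtain ⟨h11, h12⟩ := hpt1 y _ h6 (by linarith)
          exact hT₀ x y _ _ hxy (by rw [h9, h11]) h10 h12 (by linarith)
      refine (hβL _ _).trans ?_
      have h6 : C * dist (pt x ((m x - j : ℤ) : ℝ)) (pt y ((m x - j : ℤ) : ℝ)) ≤ |C| * η := by
        refine (mul_le_mul_of_nonneg_right (le_abs_self C) dist_nonneg).trans ?_
        exact mul_le_mul_of_nonneg_left h5 (abs_nonneg C)
      have h7 : (|C| + 1) * η = ε / 2 := by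
        rw [hη]
        field_simp
      nlinarith
    have h4 := n1_sub_le (∑ j ∈ Finset.range N, (β (pt x ((m x - j : ℤ) : ℝ)) -
        β (pt y ((m x - j : ℤ) : ℝ))))
        ((∑ j ∈ Finset.range N, β (pt y ((m x + d - j : ℤ) : ℝ))) -
          ∑ j ∈ Finset.range N, β (pt y ((m x - j : ℤ) : ℝ)))
    rw [h1]
    have h5 : n1 ((∑ j ∈ Finset.range N, β (pt y ((m x + d - j : ℤ) : ℝ))) -
          ∑ j ∈ Finset.range N, β (pt y ((m x - j : ℤ) : ℝ))) ≤ 2 * d := h2
    nlinarith
  refine ⟨Z, fun x => (1 / (N : ℝ)) • S x, 2 * (T + N + 1) + D, ?_, ?_, ?_, ?_⟩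
  · intro x z
    rw [Finsupp.smul_apply, smul_eq_mul, hS]
    refine mul_nonneg (by positivity) ?_
    show 0 ≤ (∑ j ∈ Finset.range N, β (pt x ((m x - j : ℤ) : ℝ))) z
    rw [Finsupp.finsetSum_apply]
    exact Finset.sum_nonneg fun j _ => hβ0 _ _
  · intro x
    have hsum : ((S x).sum fun _ t => t) = N := by
      rw [hS]
      show ((∑ j ∈ Finset.range N, β (pt x ((m x - j : ℤ) : ℝ))).sum fun _ t => t) = N
      rw [← Finsupp.sum_finsetSum_index (fun _ => rfl) (fun _ _ _ => rfl)]
      rw [Finset.sum_congr rfl fun j _ => hβ1 _, Finset.sum_const, Finset.card_range]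
      simp
    rw [Finsupp.sum_smul_index (fun _ => rfl)]
    have h2 : ((S x).sum fun _ t => 1 / (N : ℝ) * t) = 1 / (N : ℝ) * (S x).sum fun _ t => t := by
      unfold Finsupp.sum
      rw [Finset.mul_sum]
    rw [h2, hsum]
    field_simp
  · intro x y hxy
    rw [← smul_sub, n1_smul (by positivity)]
    have h1 : n1 (S x - S y) ≤ ε * N := by
      rcases le_total (m x) (m y) with h | h
      · exact key x y hxy h
      · have h2 := key y x (by rw [dist_comm]; exact hxy) h
        rw [← n1_neg, neg_sub] at h2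
        exact h2
    rw [one_div, inv_mul_le_iff₀ hN0]
    linarith
  · intro x y z hx hy
    have hex : ∀ x, ((1 / (N : ℝ)) • S x) z ≠ 0 → ∃ p : X, β p z ≠ 0 ∧ dist p x ≤ T + N + 1 := by
      intro x hx
      have h1 : S x z ≠ 0 := by
        intro h0
        rw [Finsupp.smul_apply, h0, smul_zero] at hx
        exact hx rfl
      rw [hS] at h1
      change (∑ j ∈ Finset.range N, β (pt x ((m x - j : ℤ) : ℝ))) z ≠ 0 at h1
      rw [Finsupp.finsetSum_apply] at h1
      obtain ⟨j, hj, h2⟩ := Finset.exists_ne_zero_of_sum_ne_zero h1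
      refine ⟨_, h2, ?_⟩
      have hjN : (j : ℝ) ≤ N := by exact_mod_cast (Finset.mem_range.mp hj).le
      have h3 := hm2 x
      have h4 := hm1 x
      have h5 : ((m x - j : ℤ) : ℝ) = m x - j := by push_cast; ring
      have hj0 : (0 : ℝ) ≤ (j : ℝ) := Nat.cast_nonneg j
      rcases le_or_gt ((m x - j : ℤ) : ℝ) 0 with h6 | h6
      · rw [hpt0 x _ h6]
        linarith
      · obtain ⟨h9, h10⟩ := hpt1 x _ h6 (by linarith)
        linarith
    obtain ⟨p, hp1, hp2⟩ := hex x hx
    obtain ⟨q, hq1, hq2⟩ := hex y hy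
    have h1 := hβD p q z hp1 hq1
    have h2 := dist_triangle4 x p q y
    rw [dist_comm x p] at h2
    linarith

end Pool.Agent.H61.CZ
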