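import Pool.Agent.H61.CZ.Joint

/-!
# Property A and coarse embeddability of groups acting on a building and on a CAT(0) space
-/

set_option autoImplicit false

namespace Pool.Agent.H61.CZ

open Pool.Agent.H97.BLD Pool.Agent.H66.NCL Pool.Agent.H4.FC
open scoped Pointwise

universe u

variable {S : Type} [Finite S] {M : CoxeterMatrix S} {Δ X : Type u}
  {δ : Δ → Δ → M.Group} {G : Type u} [Group G] [MulAction G Δ] [MetricSpace X] [MulAction G X]

/-- the elements of `G` which fix the point `x` and stabilize the residue of type `J` of `c` -/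
theorem mem_inf (h : IsBuilding M δ) (hG : ∀ (g : G) (c d : Δ), δ (g • c) (g • d) = δ c d)
    (J : Finset S) (c : Δ) (x : X) (g : G) :
    g ∈ MulAction.stabilizer G x ⊓ MulAction.stabilizer G (residue M δ J c) ↔
      g • x = x ∧ δ c (g • c) ∈ par M J := by
  classical
  letI := Fintype.ofFinite S
  rw [Subgroup.mem_inf, MulAction.mem_stabilizer_iff, MulAction.mem_stabilizer_iff,
    ← mem_stab h hG J c g]
  refine and_congr Iff.rfl ⟨fun h1 d => ?_, fun h1 => ?_⟩
  · rw [← Set.smul_mem_smul_set_iff (a := g) (x := d), h1]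
  · ext d
    rw [Set.mem_smul_set_iff_inv_smul_mem, h1 (g⁻¹ • d), smul_inv_smul]

theorem propertyA [Nonempty Δ] (h : IsBuilding M δ)
    (hG : ∀ (g : G) (c d : Δ), δ (g • c) (g • d) = δ c d) [Nonempty X] (hX : CAT0 X)
    (hd : FinShapes G X) (hA : SpaceA X)
    (hst : ∀ J : Finset S, Finite (par M J) → ∀ (c : Δ) (x : X),
      PropertyA ↥(MulAction.stabilizer G x ⊓ MulAction.stabilizer G (residue M δ J c))) :
    PropertyA G := by
  classical
  letI := Fintype.ofFinite S
  refine Det.propertyA (joint (Det.good le_rfl) h hG hX hd hA fun J hJ c x => ?_)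
  refine Det.mono ?_ (Det.of_propertyA (hst J hJ c x))
  intro g hg
  exact (mem_inf h hG J c x g).mpr hg

theorem coarselyEmbeds [Countable G] [Nonempty Δ] (h : IsBuilding M δ)
    (hG : ∀ (g : G) (c d : Δ), δ (g • c) (g • d) = δ c d) [Nonempty X] (hX : CAT0 X)
    (hd : FinShapes G X) (hA : SpaceA X)
    (hst : ∀ J : Finset S, Finite (par M J) → ∀ (c : Δ) (x : X), CoarselyEmbeds.{u, u}
      ↥(MulAction.stabilizer G x ⊓ MulAction.stabilizer G (residue M δ J c))) :
    CoarselyEmbeds.{u, u} G := by
  classical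
  letI := Fintype.ofFinite S
  refine Det.coarselyEmbeds (joint (Det.good (by norm_num)) h hG hX hd hA fun J hJ c x => ?_)
  refine Det.mono ?_ (Det.of_coarselyEmbeds (hst J hJ c x))
  intro g hg
  exact (mem_inf h hG J c x g).mpr hg

end Pool.Agent.H61.CZ
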