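import Pool.Agent.H97.BLD.Main
import Pool.Agent.H61.CZ.Contract

/-!
# Groups acting on a building and on a CAT(0) space
-/

set_option autoImplicit false

namespace Pool.Agent.H61.CZ

open Pool.Agent.H97.BLD Pool.Agent.H66.NCL Pool.Agent.H4.FC

universe u v

section restrict

variable {G : Type u} [Group G]

/-- a good class of subsets of `G` gives a good class of subsets of every subgroup -/
theorem Good.restrict {P : Set G → Prop} (hP : Good P) (L : Subgroup G) :
    Good (fun Y : Set L => P (Subtype.val '' Y)) where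
  mono Y Y' h h' := hP.mono _ _ (Set.image_mono h) h'
  empty := by
    rw [Set.image_empty]
    exact hP.empty
  union Y Y' h h' := by
    rw [Set.image_union]
    exact hP.union _ _ h h'
  cosets L' Y h h1 h2 := by
    classical
    refine hP.cosets (L'.map L.subtype) _ ?_ ?_ ?_
    · refine hP.mono _ _ ?_ h
      rintro g ⟨l, hl, rfl⟩
      exact ⟨l, hl, rfl⟩
    · rintro y ⟨y', hy', rfl⟩ l ⟨l', hl', rfl⟩
      exact ⟨y' * l', h1 y' hy' l' hl', rfl⟩
    · intro E
      obtain ⟨Z, hZ, hZ'⟩ := h2 (E.subtype (· ∈ L))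
      refine ⟨_, hZ, ?_⟩
      rintro y ⟨y', hy', rfl⟩ e he heL ⟨z, hz, hze⟩
      have h3 : e ∈ L := by
        have h4 : e = (y' : G)⁻¹ * z := by
          rw [hze, inv_mul_cancel_left]
        rw [h4]
        exact mul_mem (inv_mem y'.2) z.2
      refine ⟨y', hZ' y' hy' ⟨e, h3⟩ (by rw [Finset.mem_subtype]; exact he) ?_ ?_, rfl⟩
      · intro h4
        exact heL ⟨⟨e, h3⟩, h4, rfl⟩
      · have h5 : y' * ⟨e, h3⟩ = z := Subtype.ext hze.symm
        rw [h5]
        exact hz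
  fiber Y h := by
    classical
    refine hP.fiber _ ?_
    intro E ε hε
    obtain ⟨Z, ξ, X, hX, h0, h1, h2, h3⟩ := h (E.subtype (· ∈ L)) ε hε
    obtain ⟨ζ, hζ⟩ : ∃ ζ : G → Z →₀ ℝ, ∀ g : L, ζ g = ξ g :=
      ⟨fun g => if hg : g ∈ L then ξ ⟨g, hg⟩ else 0, fun g => dif_pos g.2⟩
    refine ⟨Z, ζ, Subtype.val '' X, hX, ?_, ?_, ?_, ?_⟩
    · rintro y ⟨y', hy', rfl⟩ z
      rw [hζ]
      exact h0 y' hy' z
    · rintro y ⟨y', hy', rfl⟩
      rw [hζ]
      exact h1 y' hy'
    · rintro y ⟨y', hy', rfl⟩ e he ⟨z, hz, hze⟩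
      have h3 : e ∈ L := by
        have h4 : e = (y' : G)⁻¹ * z := by
          rw [hze, inv_mul_cancel_left]
        rw [h4]
        exact mul_mem (inv_mem y'.2) z.2
      rw [← hze, hζ, hζ]
      have h5 : y' * ⟨e, h3⟩ = z := Subtype.ext hze.symm
      have h6 := h2 y' hy' ⟨e, h3⟩ (by rw [Finset.mem_subtype]; exact he) (by rw [h5]; exact hz)
      rw [h5] at h6
      exact h6
    · intro z
      obtain ⟨k, hk⟩ := h3 z
      refine ⟨k, ?_⟩
      rintro y ⟨y', hy', rfl⟩ hne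
      rw [hζ] at hne
      exact ⟨k⁻¹ * y', hk y' hy' hne, rfl⟩

end restrict

variable {S : Type} [Fintype S] [DecidableEq S] {M : CoxeterMatrix S} {Δ X : Type u}
  {δ : Δ → Δ → M.Group}

theorem joint {G : Type u} [Group G] {P : Set G → Prop} (hP : Good P) [MulAction G Δ]
    [Nonempty Δ] (h : IsBuilding M δ) (hG : ∀ (g : G) (c d : Δ), δ (g • c) (g • d) = δ c d)
    [MetricSpace X] [MulAction G X] [Nonempty X] (hX : CAT0 X) (hd : FinShapes G X) (hA : SpaceA X)
    (hst : ∀ J, Sph M J → ∀ (c : Δ) (x : X), P {g : G | g • x = x ∧ δ c (g • c) ∈ par M J}) :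
    P Set.univ := by
  refine main hP hX hd hA fun x => ?_
  have h1 := H97.BLD.main (G := MulAction.stabilizer G x) (Δ := Δ)
    (Good.restrict hP (MulAction.stabilizer G x)) h (fun g c d => hG g c d)
    (fun J hJ c => ?_)
  · refine hP.mono _ _ ?_ h1
    intro g hg
    exact ⟨⟨g, hg⟩, Set.mem_univ _, rfl⟩
  · refine hP.mono _ _ ?_ (hst J hJ c x)
    rintro g ⟨g', hg', rfl⟩
    exact ⟨g'.2, hg'⟩

end Pool.Agent.H61.CZ
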