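import Pool.Agent.H61.CZ.Coarse

/-!
# Groups acting on CAT(0) spaces with property A
-/

set_option autoImplicit false

namespace Pool.Agent.H61.CZ

open Pool.Agent.H97.BLD Pool.Agent.H66.NCL

universe u v

/-- Property A of the metric space `X` (not necessarily of bounded geometry): for all `R` and
`ε > 0` there are finitely supported probability measures `μ x` on a set, `‖μ x - μ y‖ ≤ ε` if
`dist x y ≤ R`, and a bound for the distance of any two points `x`, `y` such that `μ x` and `μ y`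
have an atom in common. -/
def SpaceA (X : Type v) [MetricSpace X] : Prop :=
  ∀ (R ε : ℝ), 0 < ε → ∃ (Z : Type v) (μ : X → Z →₀ ℝ) (D : ℝ), (∀ x z, 0 ≤ μ x z) ∧
    (∀ x, ((μ x).sum fun _ t => t) = 1) ∧ (∀ x y, dist x y ≤ R → n1 (μ x - μ y) ≤ ε) ∧
    ∀ x y z, μ x z ≠ 0 → μ y z ≠ 0 → dist x y ≤ D

variable {G : Type u} {X : Type u} [Group G] [MetricSpace X] [MulAction G X]

theorem main {P : Set G → Prop} (hP : Good P) [Nonempty X] (hX : CAT0 X) (hd : FinShapes G X)
    (hA : SpaceA X) (hst : ∀ x : X, P {g : G | g • x = x}) :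
    P Set.univ := by
  classical
  obtain ⟨o⟩ : Nonempty X := inferInstance
  refine hP.fiber _ ?_
  intro E ε hε
  obtain ⟨R, hR⟩ : ∃ R : ℝ, ∀ e ∈ E, dist o (e • o) ≤ R := by
    rcases E.eq_empty_or_nonempty with h0 | h0
    · exact ⟨0, fun e he => by rw [h0] at he; exact absurd he (Finset.notMem_empty e)⟩
    · obtain ⟨e₀, -, h1⟩ := Finset.exists_max_image E (fun e => dist o (e • o)) h0
      exact ⟨dist o (e₀ • o), h1⟩
  obtain ⟨Z, μ, D, h0, h1, h2, h3⟩ := hA R ε hε
  refine ⟨Z, fun g => μ (g • o), {g : G | dist o (g • o) ≤ D}, coarse hP hX hd hst o o D,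
    fun g _ z => h0 _ z, fun g _ => h1 _, ?_, ?_⟩
  · intro g _ e he _
    refine h2 _ _ ?_
    rw [mul_smul, hd.isom g]
    exact hR e he
  · intro z
    by_cases hz : ∃ h : G, μ (h • o) z ≠ 0
    · obtain ⟨h, hh⟩ := hz
      refine ⟨h, fun g _ hg => ?_⟩
      have h4 := h3 _ _ z hh hg
      show dist o ((h⁻¹ * g) • o) ≤ D
      rw [← hd.isom h, ← mul_smul, mul_inv_cancel_left]
      exact h4
    · push Not at hz
      exact ⟨1, fun g _ hg => absurd (hz g) hg⟩

end Pool.Agent.H61.CZ
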